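import Pool.Agent.H30.VGH.Targets
import Pool.Agent.H27.LV.Curve
import Pool.Agent.H58.LV.DFI

/-!
# Degree at least three, and the height of a root of a polynomial
-/

set_option autoImplicit false

namespace Pool.Agent.H1.VGH

open SC Pool.Agent.H27.LV Pool.Agent.H30.VGH Polynomial

variable {k K : Type} [Field k] [Field K] [Algebra k K]

theorem pe_nonneg (v : DV k K) (τ : K) : 0 ≤ pe v τ := le_max_left _ _

theorem pe_pos {v : DV k K} {τ : K} (h : 0 < pe v τ) : v.ord τ = - pe v τ ∧ v.ord τ ≠ 0 := by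
  unfold pe at h ⊢
  omega

theorem supp_pe [IsAlgClosed k] [CharZero k] [Algebra.EssFiniteType k K]
    (htr : Algebra.trdeg k K = 1) (τ : K) :
    (Function.support fun v : DV k K => pe v τ).Finite := by
  refine (pfm k K htr τ).1.subset fun v hv => ?_
  simp only [Function.mem_support, Set.mem_ofPred_eq] at hv ⊢
  intro h
  apply hv
  unfold pe
  omega

theorem supp_a (a : DV k K → ℕ) (ha : a.support.Finite) (c : ℤ) :
    (Function.support fun v : DV k K => c * (a v : ℤ)).Finite := by
  refine ha.subset fun v hv => ?_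
  simp only [Function.mem_support] at hv ⊢
  intro h
  apply hv
  simp [h]

theorem pf_DG3 (hLED : T_LED) : T_DG3 := by
  intro k K _ _ _ _ _ _ htr D hD r B ρ τ a hρ ha hga hB hdeg heq
  have hB0 : B ≠ 0 := by
    rintro rfl
    simp at hdeg
  have hlc : B.leadingCoeff ≠ 0 := leadingCoeff_ne_zero.2 hB0
  have hloc : ∀ v : DV k K, 0 ≤ v.ord B.leadingCoeff - ordD v D + (2 * r + 2) * (a v : ℤ) -
      pe v τ := by
    intro v
    by_contra hcon
    push Not at hcon
    have hBv : ordD v D - (2 * r + 2) * (a v : ℤ) ≤ v.ord B.leadingCoeff :=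
      (hB v B.natDegree).resolve_left hlc
    have hpos : 0 < pe v τ := by linarith
    obtain ⟨h1, h1'⟩ := pe_pos hpos
    obtain ⟨h2, h3⟩ := hLED k K v (ordD v D - (2 * r + 2) * (a v : ℤ)) B τ hB0 (hB v) (by linarith)
    obtain ⟨h4, h5⟩ := (dor k K htr D hD v).2.2 τ h1'
    have h6 : v.ord ρ + v.ord (D τ) = v.ord (B.eval τ) := by
      rw [← heq, v.ord_mul' hρ h4]
    have h7 : -(2 * (r : ℤ) * (a v : ℤ)) ≤ v.ord ρ := (hga v).resolve_left hρ
    have ha0 : (0 : ℤ) ≤ (a v : ℤ) := Int.natCast_nonneg _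
    have hf : (3 : ℤ) ≤ (B.natDegree : ℤ) := by exact_mod_cast hdeg
    have h8 : 3 * pe v τ ≤ (B.natDegree : ℤ) * pe v τ := mul_le_mul_of_nonneg_right hf hpos.le
    rw [h3, h5, h1] at h6
    nlinarith
  have hlf := (pfm k K htr B.leadingCoeff)
  have hdf : (Function.support fun v : DV k K => ordD v D).Finite :=
    Pool.Agent.H58.LV.dfi dor pfm rat k K htr D hD
  have haf := supp_a (k := k) (K := K) a ha (2 * r + 2)
  have hpf := supp_pe htr τ
  have hsum := finsum_nonneg hloc
  have f1 : (Function.support fun v : DV k K => v.ord B.leadingCoeff - ordD v D).Finite :=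
    (Set.Finite.union hlf.1 hdf).subset (Function.support_sub _ _)
  have f2 : (Function.support fun v : DV k K => v.ord B.leadingCoeff - ordD v D +
      (2 * r + 2) * (a v : ℤ)).Finite := (f1.union haf).subset (Function.support_add _ _)
  rw [finsum_sub_distrib f2 hpf, finsum_add_distrib f1 haf, finsum_sub_distrib hlf.1 hdf, hlf.2,
    ← mul_finsum] at hsum
  unfold canDeg
  linarith

theorem pf_RTB (hLED : T_LED) : T_RTB := by
  intro k K _ _ _ _ _ _ htr g τ a hg hgτ ha hga
  have hloc : ∀ v : DV k K, 0 ≤ v.ord g.leadingCoeff + 1 * (a v : ℤ) - pe v τ := by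
    intro v
    by_contra hcon
    push Not at hcon
    exact (hLED k K v (-(a v : ℤ)) g τ hg (hga v) (by linarith)).1 hgτ
  have hlf := (pfm k K htr g.leadingCoeff)
  have haf := supp_a (k := k) (K := K) a ha 1
  have hpf := supp_pe htr τ
  have hsum := finsum_nonneg hloc
  have f2 : (Function.support fun v : DV k K => v.ord g.leadingCoeff + 1 * (a v : ℤ)).Finite :=
    (Set.Finite.union hlf.1 haf).subset (Function.support_add _ _)
  rw [finsum_sub_distrib f2 hpf, finsum_add_distrib hlf.1 haf, hlf.2, ← mul_finsum] at hsum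
  linarith

end Pool.Agent.H1.VGH
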